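import Pool.Agent.Work.MP_c71557_gt.L.Defs

set_option autoImplicit false
set_option linter.unusedVariables false

/-!
# MP_c71557_gt, block L: germs along blocks as classes of permutations

`CG`: blocks, permutations `g` of `α` which near `{l ≤ pos ≤ r}` agree with an admissible element
of `Γ`, modulo the permutations which are the identity near `{l ≤ pos ≤ r}`.
-/

namespace C715

open CategoryTheory

namespace LineGrp

variable {α : Type} (G : LineGrp α)

/-- `g = h` near the block -/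
def Near (J : Blk) (g h : Equiv.Perm α) : Prop :=
  ∃ ε > 0, ∀ x ∈ G.X, J.1.1 - ε ≤ G.pos x → G.pos x ≤ J.1.2 + ε → g x = h x

/-- permutations which are the identity near the block -/
def NG (J : Blk) : Subgroup (Equiv.Perm α) where
  carrier := {g | G.Near J g 1}
  mul_mem' := by
    rintro g h ⟨ε, hε, h1⟩ ⟨ε', hε', h2⟩
    refine ⟨min ε ε', lt_min hε hε', fun x hx hp hp' => ?_⟩
    have e1 := h2 x hx (by linarith [min_le_right ε ε']) (by linarith [min_le_right ε ε'])
    have e2 := h1 x hx (by linarith [min_le_left ε ε']) (by linarith [min_le_left ε ε'])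
    rw [Equiv.Perm.mul_apply, e1, Equiv.Perm.one_apply, e2, Equiv.Perm.one_apply]
  one_mem' := ⟨1, one_pos, fun _ _ _ _ => rfl⟩
  inv_mem' := by
    rintro g ⟨ε, hε, h1⟩
    refine ⟨ε, hε, fun x hx hp hp' => ?_⟩
    have h2 := h1 x hx hp hp'
    rw [Equiv.Perm.one_apply] at h2
    rw [Equiv.Perm.one_apply, Equiv.Perm.inv_eq_iff_eq, h2]

/-- admissible permutations -/
def AdmG (J : Blk) (g : Equiv.Perm α) (J' : Blk) : Prop := ∃ γ, G.Adm J γ J' ∧ G.Near J g γ

/-- germs along blocks -/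
def CG : ActCat (Equiv.Perm α) where
  Ob := Blk
  Adm := G.AdmG
  N := G.NG
  one J := ⟨1, Adm.one G J, 1, one_pos, fun _ _ _ _ => rfl⟩
  mul := by
    rintro J J' J'' g h ⟨γ, hγ, ε, hε, e1⟩ ⟨γ', hγ', ε', hε', e2⟩
    obtain ⟨δ, hδ, h1⟩ := hγ.2.1 ε' hε'
    obtain ⟨δ', hδ', h2⟩ := hγ.2.2 ε' hε'
    refine ⟨γ' * γ, hγ.mul G hγ', min ε (min δ δ'), lt_min hε (lt_min hδ hδ'),
      fun x hx hp hp' => ?_⟩
    have m1 := min_le_left ε (min δ δ')
    have m2 := (min_le_right ε (min δ δ')).trans (min_le_left δ δ')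
    have m3 := (min_le_right ε (min δ δ')).trans (min_le_right δ δ')
    rw [Equiv.Perm.mul_apply, Equiv.Perm.mul_apply, e1 x hx (by linarith) (by linarith),
      e2 (γ x) (G.mem_X γ hγ.1 x hx) (h2 x hx (by linarith)) (h1 x hx (by linarith))]
  nAdm := by
    rintro J n ⟨ε, hε, h1⟩
    exact ⟨1, Adm.one G J, ε, hε, h1⟩
  conj := by
    rintro J J' g n ⟨γ, hγ, ε, hε, e1⟩ ⟨ε', hε', e2⟩
    obtain ⟨δ, hδ, h1⟩ := hγ.2.1 ε' hε'
    obtain ⟨δ', hδ', h2⟩ := hγ.2.2 ε' hε'
    refine ⟨min ε (min δ δ'), lt_min hε (lt_min hδ hδ'), fun x hx hp hp' => ?_⟩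
    have m1 := min_le_left ε (min δ δ')
    have m2 := (min_le_right ε (min δ δ')).trans (min_le_left δ δ')
    have m3 := (min_le_right ε (min δ δ')).trans (min_le_right δ δ')
    have e3 := e1 x hx (by linarith) (by linarith)
    have e4 := e2 (γ x) (G.mem_X γ hγ.1 x hx) (h2 x hx (by linarith)) (h1 x hx (by linarith))
    rw [Equiv.Perm.one_apply] at e4 ⊢
    rw [Equiv.Perm.mul_apply, Equiv.Perm.mul_apply, e3, e4, ← e3]
    exact g.symm_apply_apply x

/-- elements of `Γ` which are the identity near a block split -/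
def Split : Prop := ∀ (J : Blk) (g : Equiv.Perm α), g ∈ G.Γ → G.Near J g 1 → g ∈ G.LR J

/-- `CV → CG` -/
def cvcg : G.CV.Obj ⥤ G.CG.Obj :=
  ActCat.idFun (A := G.CV) (A' := G.CG) (fun J => J)
    (fun {J J' g} h => ⟨g, h, 1, one_pos, fun _ _ _ _ => rfl⟩)
    (fun {J n} hn => by
      obtain ⟨a, ⟨haΓ, ε, hε, h1⟩, b, ⟨hbΓ, ε', hε', h2⟩, rfl⟩ := hn
      refine ⟨min ε ε', lt_min hε hε', fun x hx hp hp' => ?_⟩
      rw [Equiv.Perm.mul_apply, h2 x hx (by linarith [min_le_right ε ε']),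
        h1 x hx (by linarith [min_le_left ε ε']), Equiv.Perm.one_apply])

end LineGrp
end C715
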