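import Pool.Agent.Work.MP_c71557_gt.L.LC
import Pool.Agent.Work.MP_c71557_gt.H.SuspH

set_option autoImplicit false

/-!
# MP_c71557_gt, module L/LD: the suspension map of a line group (M)

`H ≤ Γ` a subgroup, blocks `Ja, Jb, Jt` with `Adm Ja 1 Jt`, `Adm Jb 1 Jt`, `H ≤ R (Ja.2)` (`H` acts to
the right of `Ja`) and `H ≤ L (Jb.1)` (to the left of `Jb`), and `sg H → sg (L Jb.1)` a homology
isomorphism.  `sus : susp H → CV`, `a, b, t ↦ Ja, Jb, Jt`; `susP : suspP H → CP` the same on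
objects.  The square of pairs
`(suspP H, sg H at b) → (CP, Fb Jb)`, `(susp H, b) → (CV, Jb)` commutes.

* `sus_ker`, `sus_coker`: kernel and cokernel of `H_{n+1}(susp H) → H_{n+1}(CV)`.
PROOF.  `relC (atB H) → relC (fibIncl Jb)` is a quasi-isomorphism: `suspP_acy`, `cp_acy`,
`sg H → Fb Jb` is a homology isomorphism (`sg H → sg (L l) → Fb Jb`), five lemma
(`Cx.coker_qis`).  `susp_rel`: `relC (atB H) → relC (b)` is a quasi-isomorphism.  Hence the map
`H_n(relC (ptF b)) → H_n(relC (ptF Jb))` is isomorphic to `(G.ρ Jb).H n`, whose kernel and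
cokernel are estimated in `cv_rel`.  For `n + 1 ≥ 1` pass to absolute homology by `relPt`
(natural).
-/

namespace C715

open CategoryTheory ActCat

namespace LineGrp

variable {α : Type} (G : LineGrp α)

/-- the suspension functor -/
def sus (H : Subgroup (Equiv.Perm α)) (Ja Jb Jt : Blk) (hat : G.Adm Ja 1 Jt)
    (hbt : G.Adm Jb 1 Jt) (hHa : H ≤ G.R Ja.1.2) (hHb : H ≤ G.L Jb.1.1)
    (hHt : ∀ h ∈ H, G.Adm Jt h Jt) : (susp H).Obj ⥤ G.CV.Obj :=
  idFun (A := susp H) (A' := G.CV) (fun x => match x with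
      | S3.a => Ja
      | S3.b => Jb
      | S3.t => Jt)
    (fun {x y g} hg => by
      obtain ⟨h, hgH⟩ := hg
      have e : ∀ J : Blk, G.Adm J 1 Jt → G.Adm J g Jt := fun J hJ => by
        have := hJ.mul G (hHt g hgH)
        rwa [mul_one] at this
      cases x
      · rcases h with rfl | rfl
        · exact G.R_adm (hHa hgH)
        · exact e Ja hat
      · rcases h with rfl | rfl
        · exact G.L_adm (hHb hgH)
        · exact e Jb hbt
      · rcases h with rfl | rfl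
        · exact hHt g hgH
        · exact hHt g hgH)
    (fun {x n} hn => by
      cases x
      · exact G.R_le_LR Ja (hHa hn)
      · exact G.L_le_LR Jb (hHb hn)
      · have hn' : n ∈ (⊥ : Subgroup (Equiv.Perm α)) := hn
        rw [Subgroup.mem_bot] at hn'
        subst hn'
        exact Subgroup.one_mem _)

section aux

variable {V W V' W' : Type} [AddCommGroup V] [Module ℚ V] [AddCommGroup W] [Module ℚ W]
  [AddCommGroup V'] [Module ℚ V'] [AddCommGroup W'] [Module ℚ W']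

private theorem ker_S (S : Serre) (f : V →ₗ[ℚ] W) (f' : V' →ₗ[ℚ] W') (a : V →ₗ[ℚ] V')
    (b : W →ₗ[ℚ] W') (h : ∀ x, b (f x) = f' (a x)) (ha : Function.Bijective a)
    (hb : Function.Injective b) : S.P (LinearMap.ker f) ↔ S.P (LinearMap.ker f') := by
  have h1 : ∀ x ∈ LinearMap.ker f, a x ∈ LinearMap.ker f' := fun x hx => by
    rw [LinearMap.mem_ker] at hx ⊢
    rw [← h, hx, map_zero]
  refine S.congr (LinearEquiv.ofBijective (a.restrict h1) ⟨?_, ?_⟩)
  · intro x y hxy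
    exact Subtype.ext (ha.1 (congrArg Subtype.val hxy))
  · rintro ⟨y, hy⟩
    obtain ⟨x, rfl⟩ := ha.2 y
    refine ⟨⟨x, ?_⟩, Subtype.ext rfl⟩
    rw [LinearMap.mem_ker] at hy ⊢
    rw [← h] at hy
    exact hb (hy.trans (map_zero b).symm)

private theorem coker_S (S : Serre) (f : V →ₗ[ℚ] W) (f' : V' →ₗ[ℚ] W') (a : V →ₗ[ℚ] V')
    (b : W →ₗ[ℚ] W') (h : ∀ x, b (f x) = f' (a x)) (ha : Function.Surjective a)
    (hb : Function.Bijective b) :
    S.P (W ⧸ LinearMap.range f) ↔ S.P (W' ⧸ LinearMap.range f') := by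
  have h1 : LinearMap.range f ≤ (LinearMap.range f').comap b := by
    rintro _ ⟨x, rfl⟩
    exact ⟨a x, (h x).symm⟩
  refine S.congr (LinearEquiv.ofBijective (Submodule.mapQ _ _ b h1) ⟨?_, ?_⟩)
  · rw [injective_iff_map_eq_zero]
    intro x hx
    obtain ⟨x, rfl⟩ := Submodule.Quotient.mk_surjective _ x
    rw [Submodule.mapQ_apply, Submodule.Quotient.mk_eq_zero] at hx
    obtain ⟨y, hy⟩ := hx
    obtain ⟨z, rfl⟩ := ha y
    rw [← h] at hy
    rw [Submodule.Quotient.mk_eq_zero]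
    exact ⟨z, hb.1 hy⟩
  · intro y
    obtain ⟨y, rfl⟩ := Submodule.Quotient.mk_surjective _ y
    obtain ⟨x, rfl⟩ := hb.2 y
    exact ⟨Submodule.Quotient.mk x, rfl⟩

private theorem ker_S2 {U : Type} [AddCommGroup U] [Module ℚ U] (S : Serre) (f : V →ₗ[ℚ] W)
    (f' : V' →ₗ[ℚ] W) (r : U →ₗ[ℚ] V) (a : U →ₗ[ℚ] V') (h : ∀ x, f (r x) = f' (a x))
    (hr : Function.Bijective r) (ha : Function.Bijective a) :
    S.P (LinearMap.ker f) ↔ S.P (LinearMap.ker f') :=
  (ker_S S (f.comp r) f r LinearMap.id (fun _ => rfl) hr Function.injective_id).symm.trans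
    (ker_S S (f.comp r) f' a LinearMap.id h ha Function.injective_id)

private theorem coker_S2 {U : Type} [AddCommGroup U] [Module ℚ U] (S : Serre) (f : V →ₗ[ℚ] W)
    (f' : V' →ₗ[ℚ] W) (r : U →ₗ[ℚ] V) (a : U →ₗ[ℚ] V') (h : ∀ x, f (r x) = f' (a x))
    (hr : Function.Bijective r) (ha : Function.Bijective a) :
    S.P (W ⧸ LinearMap.range f) ↔ S.P (W ⧸ LinearMap.range f') :=
  (coker_S S (f.comp r) f r LinearMap.id (fun _ => rfl) hr.2 Function.bijective_id).symm.trans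
    (coker_S S (f.comp r) f' a LinearMap.id h ha.2 Function.bijective_id)

private theorem cnt_tensor' [Countable V] [Countable W] : Countable (TensorProduct ℚ V W) := by
  have : Function.Surjective (fun l : List (V × W) =>
      (l.map fun p => (TensorProduct.tmul ℚ p.1 p.2)).sum) := by
    intro x
    induction x using TensorProduct.induction_on with
    | zero => exact ⟨[], rfl⟩
    | tmul x y => exact ⟨[(x, y)], by simp⟩
    | add x y hx hy =>
      obtain ⟨l, rfl⟩ := hx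
      obtain ⟨l', rfl⟩ := hy
      exact ⟨l ++ l', by simp⟩
  exact this.countable

end aux

section square

variable (H : Subgroup (Equiv.Perm α)) (Ja Jb Jt : Blk) (hat : G.Adm Ja 1 Jt)
    (hbt : G.Adm Jb 1 Jt) (hHa : H ≤ G.R Ja.1.2) (hHb : H ≤ G.L Jb.1.1)
    (hHt : ∀ h ∈ H, G.Adm Jt h Jt)

private def susP : (suspP H).Obj ⥤ G.CP.Obj :=
  idFun (A := suspP H) (A' := G.CP) (fun x => match x with
      | S3.a => Ja
      | S3.b => Jb
      | S3.t => Jt)
    (fun {x y g} hg => by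
      obtain ⟨h, hgH⟩ := hg
      have e : ∀ J : Blk, G.Adm J 1 Jt → G.Adm J g Jt := fun J hJ => by
        have := hJ.mul G (hHt g hgH)
        rwa [mul_one] at this
      cases x
      · rcases h with rfl | rfl
        · exact G.R_adm (hHa hgH)
        · exact e Ja hat
      · rcases h with rfl | rfl
        · exact G.L_adm (hHb hgH)
        · exact e Jb hbt
      · rcases h with rfl | rfl
        · exact hHt g hgH
        · exact hHt g hgH)
    (fun {x n} hn => by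
      cases x
      · exact hHa hn
      · have hn' : n ∈ (⊥ : Subgroup (Equiv.Perm α)) := hn
        rw [Subgroup.mem_bot] at hn'
        subst hn'
        exact Subgroup.one_mem _
      · have hn' : n ∈ (⊥ : Subgroup (Equiv.Perm α)) := hn
        rw [Subgroup.mem_bot] at hn'
        subst hn'
        exact Subgroup.one_mem _)

private abbrev toFb : (sg H).Obj ⥤ (G.Fb Jb).Obj :=
  sgToGrp H (G.LR Jb) (G.R Jb.1.2) (G.R_le_LR Jb)
    (fun _ hg _ hn => G.CP.conj (G.LR_adm hg) hn) (hHb.trans (G.L_le_LR Jb))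

private theorem toFb_hiso (hH : HIso (sgIncl hHb)) : HIso (G.toFb H Jb hHb) := by
  have e : G.toFb H Jb hHb = sgIncl hHb ⋙ sgToGrp (G.L Jb.1.1) (G.LR Jb) (G.R Jb.1.2)
      (G.R_le_LR Jb) (fun _ hg _ hn => G.CP.conj (G.LR_adm hg) hn) (G.L_le_LR Jb) := by
    refine Functor.hext (fun x => rfl) fun x y f => ?_
    induction f using ActCat.ind with
    | h g hg => rfl
  rw [e]
  exact hH.comp (G.fb_hiso Jb)

private abbrev fbJ (J : Blk) : (G.Fb J).Obj ⥤ G.CP.Obj :=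
  G.CP.fibIncl G.LR (fun hn => G.LR_adm hn) (fun J => G.R_le_LR J) J

private theorem sqA : atB H ⋙ G.susP H Ja Jb Jt hat hbt hHa hHb hHt =
    G.toFb H Jb hHb ⋙ G.fbJ Jb := by
  refine Functor.hext (fun x => rfl) fun x y f => ?_
  induction f using ActCat.ind with
  | h g hg => rfl

private theorem sqB : ptF (⟨S3.b⟩ : (susp H).Obj) ⋙ G.sus H Ja Jb Jt hat hbt hHa hHb hHt =
    𝟭 _ ⋙ ptF (⟨Jb⟩ : G.CV.Obj) := by
  refine Functor.hext (fun x => rfl) fun x y f => ?_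
  exact heq_of_eq ((G.sus H Ja Jb Jt hat hbt hHa hHb hHt).map_id (⟨S3.b⟩ : (susp H).Obj))

private theorem sqC : suspPr H ⋙ G.sus H Ja Jb Jt hat hbt hHa hHb hHt =
    G.susP H Ja Jb Jt hat hbt hHa hHb hHt ⋙ G.CP.proj G.LR (fun hn => G.LR_adm hn)
      (fun hg hn => G.LR_conj hg hn) (fun J => G.R_le_LR J) := by
  refine Functor.hext (fun x => rfl) fun x y f => ?_
  induction f using ActCat.ind with
  | h g hg => rfl

/-- the map of pairs `(suspP H, sg H) → (CP, Fb)` -/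
private noncomputable abbrev alp :
    Cx.Hom (relC (atB H)) (relC (G.fbJ Jb)) :=
  relMap (atB H) (G.fbJ Jb) (G.susP H Ja Jb Jt hat hbt hHa hHb hHt) (G.toFb H Jb hHb)
    (fun n σ => congrArg (fun F => σ.push F) (G.sqA H Ja Jb Jt hat hbt hHa hHb hHt))

/-- the map of pairs `(susp H, b) → (CV, Jb)` -/
private noncomputable abbrev bet :
    Cx.Hom (relC (ptF (⟨S3.b⟩ : (susp H).Obj))) (relC (ptF (⟨Jb⟩ : G.CV.Obj))) :=
  relMap (ptF (⟨S3.b⟩ : (susp H).Obj)) (ptF (⟨Jb⟩ : G.CV.Obj))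
    (G.sus H Ja Jb Jt hat hbt hHa hHb hHt) (𝟭 _)
    (fun n σ => congrArg (fun F => σ.push F) (G.sqB H Ja Jb Jt hat hbt hHa hHb hHt))

private theorem alp_qis (hH : HIso (sgIncl hHb)) :
    Cx.Qis (G.alp H Ja Jb Jt hat hbt hHa hHb hHt) := by
  refine Cx.coker_qis _ _ (NCmap_inj _ (atB_inj H)) (NCmap_inj _
    (G.CP.fibIncl_inj G.LR (fun hn => G.LR_adm hn) (fun J => G.R_le_LR J) Jb)) _ _ _ ?_ ?_
  · exact G.toFb_hiso H Jb hHb hH
  · exact Acy.hiso (G.susP H Ja Jb Jt hat hbt hHa hHb hHt) (suspP_acy H) G.cp_acy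

private theorem sq_H (n : ℕ) (y : (relC (atB H)).H n) :
    (G.bet H Ja Jb Jt hat hbt hHa hHb hHt).H n
      ((relMap (atB H) (ptF (⟨S3.b⟩ : (susp H).Obj)) (suspPr H) (toPt _) (atB_const H)).H n y) =
    (G.ρ Jb).H n ((G.alp H Ja Jb Jt hat hbt hHa hHb hHt).H n y) := by
  rw [← Cx.H_comp, ← Cx.H_comp]
  congr 2
  refine Cx.Hom.ext (funext fun n => LinearMap.ext fun x => ?_)
  obtain ⟨x, rfl⟩ := Submodule.Quotient.mk_surjective _ x
  refine congrArg Submodule.Quotient.mk ?_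
  have e : (NCmap (suspPr H)).comp (NCmap (G.sus H Ja Jb Jt hat hbt hHa hHb hHt)) =
      (NCmap (G.susP H Ja Jb Jt hat hbt hHa hHb hHt)).comp (NCmap (G.CP.proj G.LR
        (fun hn => G.LR_adm hn) (fun hg hn => G.LR_conj hg hn) (fun J => G.R_le_LR J))) := by
    rw [NCmap_comp, NCmap_comp, sqC]
  exact congrArg (fun F : Cx.Hom (NC (suspP H).Obj) (NC G.CV.Obj) => F.f n x) e

private theorem sq_abs (n : ℕ) (y : HC (susp H).Obj n) :
    (Cx.toCoker (NCmap (ptF (⟨Jb⟩ : G.CV.Obj)))).H n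
      (HCmap (G.sus H Ja Jb Jt hat hbt hHa hHb hHt) n y) =
    (G.bet H Ja Jb Jt hat hbt hHa hHb hHt).H n
      ((Cx.toCoker (NCmap (ptF (⟨S3.b⟩ : (susp H).Obj)))).H n y) := by
  rw [← Cx.H_comp, ← Cx.H_comp]
  rfl

private theorem sus_ker_iff (hH : HIso (sgIncl hHb)) (S : Serre) (n : ℕ) :
    S.P (LinearMap.ker (HCmap (G.sus H Ja Jb Jt hat hbt hHa hHb hHt) (n + 1))) ↔
      S.P (LinearMap.ker ((G.ρ Jb).H (n + 1))) := by
  rw [ker_S S _ _ _ _ (G.sq_abs H Ja Jb Jt hat hbt hHa hHb hHt (n + 1)) (relPt _ n)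
    (relPt _ n).1]
  exact ker_S2 S _ _ _ _ (G.sq_H H Ja Jb Jt hat hbt hHa hHb hHt (n + 1)) (susp_rel H (n + 1))
    (G.alp_qis H Ja Jb Jt hat hbt hHa hHb hHt hH (n + 1))

private theorem sus_coker_iff (hH : HIso (sgIncl hHb)) (S : Serre) (n : ℕ) :
    S.P (HC G.CV.Obj (n + 1) ⧸
      LinearMap.range (HCmap (G.sus H Ja Jb Jt hat hbt hHa hHb hHt) (n + 1))) ↔
      S.P ((relC (ptF (⟨Jb⟩ : G.CV.Obj))).H (n + 1) ⧸ LinearMap.range ((G.ρ Jb).H (n + 1))) := by
  rw [coker_S S _ _ _ _ (G.sq_abs H Ja Jb Jt hat hbt hHa hHb hHt (n + 1)) (relPt _ n).2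
    (relPt _ n)]
  exact coker_S2 S _ _ _ _ (G.sq_H H Ja Jb Jt hat hbt hHa hHb hHt (n + 1)) (susp_rel H (n + 1))
    (G.alp_qis H Ja Jb Jt hat hbt hHa hHb hHt hH (n + 1))

end square

/-- relative homology of `(CV, J)` in degrees `≤ 2` -/
private theorem rel_low (J : Blk) (h1 : Subsingleton (HC (sg (G.L J.1.1)).Obj 1)) (p : ℕ)
    (hp : p ≤ 2) : Subsingleton ((relC (ptF (⟨J⟩ : G.CV.Obj))).H p) := by
  interval_cases p
  · exact relPt_zero (⟨J⟩ : G.CV.Obj) G.cv_conn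
  · have := G.cv_one
    exact (relPt (⟨J⟩ : G.CV.Obj) 0).2.subsingleton
  · have := G.cv_two J h1
    exact (relPt (⟨J⟩ : G.CV.Obj) 1).2.subsingleton

theorem sus_ker (H : Subgroup (Equiv.Perm α)) (Ja Jb Jt : Blk) (hat : G.Adm Ja 1 Jt)
    (hbt : G.Adm Jb 1 Jt) (hHa : H ≤ G.R Ja.1.2) (hHb : H ≤ G.L Jb.1.1)
    (hHt : ∀ h ∈ H, G.Adm Jt h Jt) (hH : HIso (sgIncl hHb)) (S : Serre) (n : ℕ)
    (hS : ∀ p q, 1 ≤ q → p + q = n + 1 → S.P (TensorProduct ℚ
        ((relC (ptF (⟨Jb⟩ : G.CV.Obj))).H p) (HC (sg (G.L Jb.1.1)).Obj q))) :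
    S.P (LinearMap.ker (HCmap (G.sus H Ja Jb Jt hat hbt hHa hHb hHt) (n + 1))) := by
  exact (G.sus_ker_iff H Ja Jb Jt hat hbt hHa hHb hHt hH S n).2 ((G.cv_rel Jb S (n + 1)).1 hS)

theorem sus_coker (H : Subgroup (Equiv.Perm α)) (Ja Jb Jt : Blk) (hat : G.Adm Ja 1 Jt)
    (hbt : G.Adm Jb 1 Jt) (hHa : H ≤ G.R Ja.1.2) (hHb : H ≤ G.L Jb.1.1)
    (hHt : ∀ h ∈ H, G.Adm Jt h Jt) (hH : HIso (sgIncl hHb)) (S : Serre) (n : ℕ)
    (hS : ∀ p q, 1 ≤ q → p + q + 1 = n + 1 → S.P (TensorProduct ℚ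
        ((relC (ptF (⟨Jb⟩ : G.CV.Obj))).H p) (HC (sg (G.L Jb.1.1)).Obj q))) :
    S.P (HC G.CV.Obj (n + 1) ⧸
      LinearMap.range (HCmap (G.sus H Ja Jb Jt hat hbt hHa hHb hHt) (n + 1))) := by
  exact (G.sus_coker_iff H Ja Jb Jt hat hbt hHa hHb hHt hH S n).2 ((G.cv_rel Jb S (n + 1)).2 hS)

/-- if `H_1(L l) = 0`: isomorphism in degrees `≤ 4`, surjective in degree `5` -/
theorem sus_low (H : Subgroup (Equiv.Perm α)) (Ja Jb Jt : Blk) (hat : G.Adm Ja 1 Jt)
    (hbt : G.Adm Jb 1 Jt) (hHa : H ≤ G.R Ja.1.2) (hHb : H ≤ G.L Jb.1.1)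
    (hHt : ∀ h ∈ H, G.Adm Jt h Jt) (hH : HIso (sgIncl hHb))
    (h1 : Subsingleton (HC (sg (G.L Jb.1.1)).Obj 1)) :
    (∀ n, n ≤ 3 → Function.Bijective (HCmap (G.sus H Ja Jb Jt hat hbt hHa hHb hHt) (n + 1))) ∧
      Function.Surjective (HCmap (G.sus H Ja Jb Jt hat hbt hHa hHb hHt) 5) := by
  have hker : ∀ n, n ≤ 3 →
      Function.Injective (HCmap (G.sus H Ja Jb Jt hat hbt hHa hHb hHt) (n + 1)) := by
    intro n hn
    have h2 := G.sus_ker H Ja Jb Jt hat hbt hHa hHb hHt hH Serre.triv n (fun p q hq hpq => ?_)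
    · have h3 : Subsingleton (LinearMap.ker
        (HCmap (G.sus H Ja Jb Jt hat hbt hHa hHb hHt) (n + 1))) := h2
      exact LinearMap.ker_eq_bot.1 (Submodule.subsingleton_iff_eq_bot.1 h3)
    · rcases Nat.lt_or_ge q 2 with h4 | h4
      · obtain rfl : q = 1 := by omega
        exact inferInstanceAs (Subsingleton (TensorProduct ℚ _ _))
      · have := G.rel_low Jb h1 p (by omega)
        exact inferInstanceAs (Subsingleton (TensorProduct ℚ _ _))
  have hcok : ∀ n, n ≤ 4 →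
      Function.Surjective (HCmap (G.sus H Ja Jb Jt hat hbt hHa hHb hHt) (n + 1)) := by
    intro n hn
    have h2 := G.sus_coker H Ja Jb Jt hat hbt hHa hHb hHt hH Serre.triv n (fun p q hq hpq => ?_)
    · have h3 : Subsingleton (HC G.CV.Obj (n + 1) ⧸
        LinearMap.range (HCmap (G.sus H Ja Jb Jt hat hbt hHa hHb hHt) (n + 1))) := h2
      exact LinearMap.range_eq_top.1 (Submodule.Quotient.subsingleton_iff.1 h3)
    · rcases Nat.lt_or_ge q 2 with h4 | h4
      · obtain rfl : q = 1 := by omega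
        exact inferInstanceAs (Subsingleton (TensorProduct ℚ _ _))
      · have := G.rel_low Jb h1 p (by omega)
        exact inferInstanceAs (Subsingleton (TensorProduct ℚ _ _))
  exact ⟨fun n hn => ⟨hker n hn, hcok n (by omega)⟩, hcok 4 le_rfl⟩

/-- if `H_i(L l)` is countable for `1 ≤ i < n` then the kernel in degree `n + 1` is countable -/
theorem sus_cnt (H : Subgroup (Equiv.Perm α)) (Ja Jb Jt : Blk) (hat : G.Adm Ja 1 Jt)
    (hbt : G.Adm Jb 1 Jt) (hHa : H ≤ G.R Ja.1.2) (hHb : H ≤ G.L Jb.1.1)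
    (hHt : ∀ h ∈ H, G.Adm Jt h Jt) (hH : HIso (sgIncl hHb)) (n : ℕ)
    (h : ∀ i, 1 ≤ i → i < n → Countable (HC (sg (G.L Jb.1.1)).Obj i)) :
    Countable (LinearMap.ker (HCmap (G.sus H Ja Jb Jt hat hbt hHa hHb hHt) (n + 1))) := by
  refine G.sus_ker H Ja Jb Jt hat hbt hHa hHb hHt hH Serre.cnt n (fun p q hq hpq => ?_)
  rcases Nat.lt_or_ge p 2 with hp | hp
  · have : Subsingleton ((relC (ptF (⟨Jb⟩ : G.CV.Obj))).H p) := by
      interval_cases p
      · exact relPt_zero (⟨Jb⟩ : G.CV.Obj) G.cv_conn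
      · have := G.cv_one
        exact (relPt (⟨Jb⟩ : G.CV.Obj) 0).2.subsingleton
    exact Serre.cnt.zero _ (inferInstanceAs (Subsingleton (TensorProduct ℚ _ _)))
  · have h2 : Countable (HC (sg (G.L Jb.1.1)).Obj q) := h q hq (by omega)
    obtain ⟨m, rfl⟩ : ∃ m, n = m + 1 := ⟨n - 1, by omega⟩
    have h3 : Countable (HC G.CV.Obj p) :=
      G.cv_cnt Jb m (fun i hi hi' => h i hi (by omega)) p (by omega) (by omega)
    obtain ⟨p', rfl⟩ : ∃ p', p = p' + 1 := ⟨p - 1, by omega⟩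
    have := (relPt (⟨Jb⟩ : G.CV.Obj) p').2.countable
    exact cnt_tensor'

end LineGrp
end C715
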