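import Pool.Agent.Work.MP_c71557_gt.L.DefsE
import Pool.Agent.Work.MP_c71557_gt.H.Equiv

set_option autoImplicit false

/-!
# MP_c71557_gt, module L/LE: `CV → CG` is an equivalence (S-M)

If `Split` holds the functor `cvcg` is bijective on objects and on morphisms: surjective since an
admissible permutation `g` is equivalent to `γ ∈ Γ` (`g⁻¹ γ` is the identity near `J`); injective:
`γ⁻¹ γ'` is in `Γ` and the identity near `J`, so in `LR J` by `Split`.  `hiso_of_equiv`.
-/

namespace C715

open CategoryTheory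

namespace LineGrp

variable {α : Type} (G : LineGrp α)

theorem cvcg_hiso (h : G.Split) : HIso G.cvcg := by
  have hf : G.cvcg.Faithful := ⟨fun {x y f f'} e => by
    induction f using ActCat.ind with
    | h g hg =>
      induction f' using ActCat.ind with
      | h g' hg' =>
        have e1 : g⁻¹ * g' ∈ G.NG x.o := ActCat.cl_eq.1 e
        exact ActCat.cl_eq.2 (h x.o _ (G.Γ.mul_mem (G.Γ.inv_mem hg.1) hg'.1) e1)⟩
  have hl : G.cvcg.Full := ⟨fun {x y} f => by
    induction f using ActCat.ind with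
    | h g hg =>
      obtain ⟨γ, hγ, ε, hε, h1⟩ := id hg
      refine ⟨G.CV.hom (a := x.o) (b := y.o) γ hγ, ActCat.cl_eq.2 ?_⟩
      refine ⟨ε, hε, fun z hz hp hp' => ?_⟩
      change (γ⁻¹ * g) z = (1 : Equiv.Perm α) z
      rw [Equiv.Perm.mul_apply, h1 z hz hp hp', Equiv.Perm.one_apply]
      exact γ.symm_apply_apply z⟩
  have he : G.cvcg.EssSurj := ⟨fun y => ⟨⟨y.o⟩, ⟨eqToIso rfl⟩⟩⟩
  have : G.cvcg.IsEquivalence := { }
  exact hiso_of_equiv _

end LineGrp
end C715
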