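import Pool.Agent.Work.MP_c71557_gt.H.RelAct
import Pool.Agent.Work.MP_c71557_gt.H.Defs6

set_option autoImplicit false
set_option linter.unusedVariables false

/-!
# MP_c71557_gt, block L: groups acting on a space with a position function to the line

`LineGrp α`: a group `Γ` of permutations of `α`, supported in `X`, a function `pos : X → ℝ`, such
that elements have bounded support and finite sets of elements can be pushed to the right and to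
the left.  Blocks `J = (l, r)`, `l < r`.  `R r` = elements which are the identity near
`{pos ≤ r}`, `L l` = elements which are the identity near `{pos ≥ l}`.
-/

namespace C715

open CategoryTheory

/-- group acting on a space over the line -/
structure LineGrp (α : Type) where
  Γ : Subgroup (Equiv.Perm α)
  X : Set α
  pos : α → ℝ
  off : ∀ g ∈ Γ, ∀ x, x ∉ X → g x = x
  bdd : ∀ g ∈ Γ, ∃ a b : ℝ, ∀ x ∈ X, (pos x ≤ a ∨ b ≤ pos x) → g x = x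
  pushR : ∀ r r' r1 : ℝ, r ≤ r' → r' < r1 → ∀ F : Set (Equiv.Perm α), F.Finite →
    (∀ f ∈ F, f ∈ Γ ∧ ∃ ε > 0, ∀ x ∈ X, pos x ≤ r + ε → f x = x) →
    ∃ g ∈ Γ, (∃ ε > 0, ∀ x ∈ X, pos x ≤ r + ε → g x = x) ∧
      (∀ x ∈ X, r1 ≤ pos x → g x = x) ∧
      ∀ f ∈ F, ∃ ε > 0, ∀ x ∈ X, pos x ≤ r' + ε → (g * f * g⁻¹) x = x
  pushL : ∀ l l' l1 : ℝ, l' ≤ l → l1 < l' → ∀ F : Set (Equiv.Perm α), F.Finite →
    (∀ f ∈ F, f ∈ Γ ∧ ∃ ε > 0, ∀ x ∈ X, l - ε ≤ pos x → f x = x) →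
    ∃ g ∈ Γ, (∃ ε > 0, ∀ x ∈ X, l - ε ≤ pos x → g x = x) ∧
      (∀ x ∈ X, pos x ≤ l1 → g x = x) ∧
      ∀ f ∈ F, ∃ ε > 0, ∀ x ∈ X, l' - ε ≤ pos x → (g * f * g⁻¹) x = x

namespace LineGrp

variable {α : Type} (G : LineGrp α)

/-- elements supported to the right of `r` -/
def R (r : ℝ) : Subgroup (Equiv.Perm α) where
  carrier := {g | g ∈ G.Γ ∧ ∃ ε > 0, ∀ x ∈ G.X, G.pos x ≤ r + ε → g x = x}
  mul_mem' := by
    rintro g h ⟨hg, ε, hε, h1⟩ ⟨hh, ε', hε', h2⟩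
    refine ⟨G.Γ.mul_mem hg hh, min ε ε', lt_min hε hε', fun x hx hp => ?_⟩
    have e1 : h x = x := h2 x hx (hp.trans (by linarith [min_le_right ε ε']))
    have e2 : g x = x := h1 x hx (hp.trans (by linarith [min_le_left ε ε']))
    rw [Equiv.Perm.mul_apply, e1, e2]
  one_mem' := ⟨G.Γ.one_mem, 1, one_pos, fun _ _ _ => rfl⟩
  inv_mem' := by
    rintro g ⟨hg, ε, hε, h1⟩
    refine ⟨G.Γ.inv_mem hg, ε, hε, fun x hx hp => ?_⟩
    rw [Equiv.Perm.inv_eq_iff_eq, h1 x hx hp]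

/-- elements supported to the left of `l` -/
def L (l : ℝ) : Subgroup (Equiv.Perm α) where
  carrier := {g | g ∈ G.Γ ∧ ∃ ε > 0, ∀ x ∈ G.X, l - ε ≤ G.pos x → g x = x}
  mul_mem' := by
    rintro g h ⟨hg, ε, hε, h1⟩ ⟨hh, ε', hε', h2⟩
    refine ⟨G.Γ.mul_mem hg hh, min ε ε', lt_min hε hε', fun x hx hp => ?_⟩
    have e1 : h x = x := h2 x hx (le_trans (by linarith [min_le_right ε ε']) hp)
    have e2 : g x = x := h1 x hx (le_trans (by linarith [min_le_left ε ε']) hp)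
    rw [Equiv.Perm.mul_apply, e1, e2]
  one_mem' := ⟨G.Γ.one_mem, 1, one_pos, fun _ _ _ => rfl⟩
  inv_mem' := by
    rintro g ⟨hg, ε, hε, h1⟩
    refine ⟨G.Γ.inv_mem hg, ε, hε, fun x hx hp => ?_⟩
    rw [Equiv.Perm.inv_eq_iff_eq, h1 x hx hp]

/-- blocks -/
abbrev Blk : Type := {J : ℝ × ℝ // J.1 < J.2}

/-- admissible elements -/
def Adm (J : Blk) (g : Equiv.Perm α) (J' : Blk) : Prop :=
  g ∈ G.Γ ∧
  (∀ ε > 0, ∃ δ > 0, ∀ x ∈ G.X, G.pos x ≤ J.1.2 + δ → G.pos (g x) ≤ J'.1.2 + ε) ∧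
  (∀ ε > 0, ∃ δ > 0, ∀ x ∈ G.X, J.1.1 - δ ≤ G.pos x → J'.1.1 - ε ≤ G.pos (g x))

theorem mem_X (g : Equiv.Perm α) (hg : g ∈ G.Γ) (x : α) (hx : x ∈ G.X) : g x ∈ G.X := by
  by_contra h
  have h1 := G.off g hg (g x) h
  have h2 := g.injective h1
  rw [h2] at h
  exact h hx

theorem Adm.one (J : Blk) : G.Adm J 1 J :=
  ⟨G.Γ.one_mem, fun ε hε => ⟨ε, hε, fun _ _ h => h⟩, fun ε hε => ⟨ε, hε, fun _ _ h => h⟩⟩

theorem Adm.mul {J J' J'' : Blk} {g h : Equiv.Perm α} (hg : G.Adm J g J')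
    (hh : G.Adm J' h J'') : G.Adm J (h * g) J'' := by
  refine ⟨G.Γ.mul_mem hh.1 hg.1, fun ε hε => ?_, fun ε hε => ?_⟩
  · obtain ⟨δ, hδ, h1⟩ := hh.2.1 ε hε
    obtain ⟨δ', hδ', h2⟩ := hg.2.1 δ hδ
    exact ⟨δ', hδ', fun x hx hp => h1 _ (G.mem_X g hg.1 x hx) (h2 x hx hp)⟩
  · obtain ⟨δ, hδ, h1⟩ := hh.2.2 ε hε
    obtain ⟨δ', hδ', h2⟩ := hg.2.2 δ hδ
    exact ⟨δ', hδ', fun x hx hp => h1 _ (G.mem_X g hg.1 x hx) (h2 x hx hp)⟩

theorem R_conj {J J' : Blk} {g n : Equiv.Perm α} (hg : G.Adm J g J') (hn : n ∈ G.R J'.1.2) :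
    g⁻¹ * n * g ∈ G.R J.1.2 := by
  obtain ⟨hnΓ, ε, hε, h1⟩ := hn
  obtain ⟨δ, hδ, h2⟩ := hg.2.1 ε hε
  refine ⟨G.Γ.mul_mem (G.Γ.mul_mem (G.Γ.inv_mem hg.1) hnΓ) hg.1, δ, hδ, fun x hx hp => ?_⟩
  rw [Equiv.Perm.mul_apply, Equiv.Perm.mul_apply, h1 _ (G.mem_X g hg.1 x hx) (h2 x hx hp)]
  exact g.symm_apply_apply x

theorem L_conj {J J' : Blk} {g n : Equiv.Perm α} (hg : G.Adm J g J') (hn : n ∈ G.L J'.1.1) :
    g⁻¹ * n * g ∈ G.L J.1.1 := by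
  obtain ⟨hnΓ, ε, hε, h1⟩ := hn
  obtain ⟨δ, hδ, h2⟩ := hg.2.2 ε hε
  refine ⟨G.Γ.mul_mem (G.Γ.mul_mem (G.Γ.inv_mem hg.1) hnΓ) hg.1, δ, hδ, fun x hx hp => ?_⟩
  rw [Equiv.Perm.mul_apply, Equiv.Perm.mul_apply, h1 _ (G.mem_X g hg.1 x hx) (h2 x hx hp)]
  exact g.symm_apply_apply x

/-- an element of `L l` maps `{pos < l}` to itself -/
theorem L_lt {l : ℝ} {g : Equiv.Perm α} (hg : g ∈ G.L l) (x : α) (hx : x ∈ G.X)
    (h : G.pos x < l) : G.pos (g x) < l := by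
  obtain ⟨hΓ, ε, hε, h1⟩ := hg
  by_contra hc
  have h2 := h1 (g x) (G.mem_X g hΓ x hx) (by linarith)
  have h3 := g.injective h2
  rw [h3] at hc
  exact hc h

theorem R_gt {r : ℝ} {g : Equiv.Perm α} (hg : g ∈ G.R r) (x : α) (hx : x ∈ G.X)
    (h : r < G.pos x) : r < G.pos (g x) := by
  obtain ⟨hΓ, ε, hε, h1⟩ := hg
  by_contra hc
  have h2 := h1 (g x) (G.mem_X g hΓ x hx) (by linarith)
  have h3 := g.injective h2
  rw [h3] at hc
  exact hc h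

theorem comm_LR (J : Blk) {a b : Equiv.Perm α} (ha : a ∈ G.L J.1.1) (hb : b ∈ G.R J.1.2) :
    a * b = b * a := by
  have hJ := J.2
  obtain ⟨haΓ, ε, hε, h1⟩ := id ha
  obtain ⟨hbΓ, ε', hε', h2⟩ := id hb
  ext x
  rw [Equiv.Perm.mul_apply, Equiv.Perm.mul_apply]
  by_cases hx : x ∈ G.X
  · rcases lt_or_ge (G.pos x) J.1.1 with h | h
    · have h3 := G.L_lt ha x hx h
      rw [h2 x hx (by linarith), h2 (a x) (G.mem_X a haΓ x hx) (by linarith)]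
    · rw [h1 x hx (by linarith)]
      rcases le_or_gt (G.pos x) J.1.2 with h' | h'
      · rw [h2 x hx (by linarith), h1 x hx (by linarith)]
      · have h3 := G.R_gt hb x hx h'
        rw [h1 (b x) (G.mem_X b hbΓ x hx) (by linarith)]
  · rw [G.off a haΓ x hx, G.off b hbΓ x hx, G.off a haΓ x hx]

/-- products of an element on the left of `J` and one on the right -/
def LR (J : Blk) : Subgroup (Equiv.Perm α) where
  carrier := {g | ∃ a ∈ G.L J.1.1, ∃ b ∈ G.R J.1.2, g = a * b}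
  mul_mem' := by
    rintro _ _ ⟨a, ha, b, hb, rfl⟩ ⟨a', ha', b', hb', rfl⟩
    refine ⟨a * a', (G.L _).mul_mem ha ha', b * b', (G.R _).mul_mem hb hb', ?_⟩
    have h := G.comm_LR J ha' hb
    calc a * b * (a' * b') = a * (b * a') * b' := by group
      _ = a * (a' * b) * b' := by rw [h]
      _ = a * a' * (b * b') := by group
  one_mem' := ⟨1, (G.L _).one_mem, 1, (G.R _).one_mem, by group⟩
  inv_mem' := by
    rintro _ ⟨a, ha, b, hb, rfl⟩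
    refine ⟨a⁻¹, (G.L _).inv_mem ha, b⁻¹, (G.R _).inv_mem hb, ?_⟩
    rw [G.comm_LR J ha hb, mul_inv_rev]

theorem L_adm {J : Blk} {a : Equiv.Perm α} (ha : a ∈ G.L J.1.1) : G.Adm J a J := by
  have hJ := J.2
  obtain ⟨haΓ, ε, hε, h1⟩ := id ha
  refine ⟨haΓ, fun η hη => ⟨η, hη, fun x hx hp => ?_⟩,
    fun η hη => ⟨min η ε, lt_min hη hε, fun x hx hp => ?_⟩⟩
  · rcases lt_or_ge (G.pos x) J.1.1 with h | h
    · have := G.L_lt ha x hx h
      linarith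
    · rw [h1 x hx (by linarith)]
      exact hp
  · rw [h1 x hx (by linarith [min_le_right η ε])]
    linarith [min_le_left η ε]

theorem R_adm {J : Blk} {b : Equiv.Perm α} (hb : b ∈ G.R J.1.2) : G.Adm J b J := by
  have hJ := J.2
  obtain ⟨hbΓ, ε, hε, h1⟩ := id hb
  refine ⟨hbΓ, fun η hη => ⟨min η ε, lt_min hη hε, fun x hx hp => ?_⟩,
    fun η hη => ⟨η, hη, fun x hx hp => ?_⟩⟩
  · rw [h1 x hx (by linarith [min_le_right η ε])]
    linarith [min_le_left η ε]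
  · rcases le_or_gt (G.pos x) J.1.2 with h | h
    · rw [h1 x hx (by linarith)]
      exact hp
    · have := G.R_gt hb x hx h
      linarith

theorem LR_adm {J : Blk} {n : Equiv.Perm α} (hn : n ∈ G.LR J) : G.Adm J n J := by
  obtain ⟨a, ha, b, hb, rfl⟩ := hn
  exact (G.R_adm hb).mul G (G.L_adm ha)

theorem LR_conj {J J' : Blk} {g n : Equiv.Perm α} (hg : G.Adm J g J') (hn : n ∈ G.LR J') :
    g⁻¹ * n * g ∈ G.LR J := by
  obtain ⟨a, ha, b, hb, rfl⟩ := hn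
  exact ⟨g⁻¹ * a * g, G.L_conj hg ha, g⁻¹ * b * g, G.R_conj hg hb, by group⟩

/-- `N` trivial -/
def CD : ActCat (Equiv.Perm α) where
  Ob := Blk
  Adm := G.Adm
  N _ := ⊥
  one := Adm.one G
  mul := fun h h' => Adm.mul G h h'
  nAdm := fun {J n} hn => by
    rw [Subgroup.mem_bot] at hn
    subst hn
    exact Adm.one G J
  conj := fun {J J' g n} hg hn => by
    rw [Subgroup.mem_bot] at hn ⊢
    subst hn
    group

/-- `N J = R r` -/
def CP : ActCat (Equiv.Perm α) where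
  Ob := Blk
  Adm := G.Adm
  N J := G.R J.1.2
  one := Adm.one G
  mul := fun h h' => Adm.mul G h h'
  nAdm := fun hn => G.R_adm hn
  conj := fun hg hn => G.R_conj hg hn

theorem R_le_LR (J : Blk) : G.R J.1.2 ≤ G.LR J := fun b hb => ⟨1, (G.L _).one_mem, b, hb, by group⟩

theorem L_le_LR (J : Blk) : G.L J.1.1 ≤ G.LR J := fun a ha => ⟨a, ha, 1, (G.R _).one_mem, by group⟩

/-- `N J = L l · R r` -/
abbrev CV : ActCat (Equiv.Perm α) :=
  G.CP.enl G.LR (fun hn => G.LR_adm hn) (fun hg hn => G.LR_conj hg hn)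

end LineGrp
end C715
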