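import Pool.Agent.Work.MP_c71557_gt.L.Defs
import Pool.Agent.Work.MP_c71557_gt.H.ActDir
import Pool.Agent.Work.MP_c71557_gt.H.QA
import Pool.Agent.Work.MP_c71557_gt.H.ConjIncl

set_option autoImplicit false

/-!
# MP_c71557_gt, module L/LA: line groups, first comparisons (M)

* `incl_R`: for `r ≤ r'` the inclusion `R r' ≤ R r` is a homology isomorphism: `conjIncl_hiso`.
  `F0 ⊆ R r'` finite: there is `r1 > r'` with all elements of `F0` the identity on `{pos ≤ r1}`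
  (smallest `ε`; if `F0` is empty take `r1 = r' + 1`).  `pushR` with `r, r', r1` and `F ⊆ R r` gives
  `g ∈ R r`, the identity on `{pos ≥ r1}`, with `g F g⁻¹ ⊆ R r'`.  `g` commutes with `F0`: on
  `{pos ≥ r1} ∪ Xᶜ` `g` is the identity, on `{pos ≤ r1}` `F0` is; an element that is the identity on
  `{pos ≥ r1}` preserves `{pos < r1}` (as in `LineGrp.L_lt`) and vice versa.
* `incl_RΓ`: `R r ≤ Γ` is a homology isomorphism: given `F ⊆ Γ` finite, `bdd` gives `a ≤ r` with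
  `F ⊆ R a` (take `a` smaller than all bounds and than `r`), then as above with `a, r`.
* `incl_L`, `incl_LΓ`: mirror images with `pushL`.
* `cd_hiso`: the functor `CD → sg Γ` (`idFun (fun _ => ())`) is a homology isomorphism:
  `quillenA_over`, `acy_over`: objects over `∗` are pairs `(J, g)`; given `(J1,g1), (J2,g2)` take
  `g3 = 1`, `k_i = g_i` and a block `J3` with `Adm J_i g_i J3` (`bdd` for `g_i`: outside `(a,b)` the
  element is the identity, so `pos (g x) ≤ max (pos x) b`: if `pos x ≥ b` or `pos x ≤ a`, `g x = x`;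
  if `a < pos x < b` then `pos (g x) < b` since otherwise `g (g x) = g x`; take `J3.2` larger than
  `J_i.2 + 1` and `b`...; the germ conditions hold with `δ = 1` or so).
-/

namespace C715

open CategoryTheory ActCat

namespace LineGrp

variable {α : Type} (G : LineGrp α)

/-- a common bound for a finite set of elements -/
private theorem fin_eps {F : Set (Equiv.Perm α)} (hF : F.Finite)
    (P : Equiv.Perm α → ℝ → Prop) (hP : ∀ f ε δ, δ ≤ ε → P f ε → P f δ)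
    (h : ∀ f ∈ F, ∃ ε > 0, P f ε) : ∃ ε > 0, ∀ f ∈ F, P f ε := by
  induction F, hF using Set.Finite.induction_on with
  | empty => exact ⟨1, one_pos, fun f hf => absurd hf (Set.notMem_empty f)⟩
  | insert _ _ ih =>
    obtain ⟨ε, hε, h1⟩ := ih fun f hf => h f (Set.mem_insert_of_mem _ hf)
    obtain ⟨ε', hε', h2⟩ := h _ (Set.mem_insert _ _)
    refine ⟨min ε ε', lt_min hε hε', fun f hf => ?_⟩
    rcases Set.mem_insert_iff.1 hf with rfl | hf
    · exact hP _ _ _ (min_le_right _ _) h2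
    · exact hP _ _ _ (min_le_left _ _) (h1 f hf)

/-- a common lower bound for a finite set of elements -/
private theorem fin_down {F : Set (Equiv.Perm α)} (hF : F.Finite)
    (P : Equiv.Perm α → ℝ → Prop) (hP : ∀ f a b, b ≤ a → P f a → P f b) (r : ℝ)
    (h : ∀ f ∈ F, ∃ a, P f a) : ∃ a ≤ r, ∀ f ∈ F, P f a := by
  induction F, hF using Set.Finite.induction_on with
  | empty => exact ⟨r, le_rfl, fun f hf => absurd hf (Set.notMem_empty f)⟩
  | insert _ _ ih =>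
    obtain ⟨a, ha, h1⟩ := ih fun f hf => h f (Set.mem_insert_of_mem _ hf)
    obtain ⟨a', h2⟩ := h _ (Set.mem_insert _ _)
    refine ⟨min a a', (min_le_left _ _).trans ha, fun f hf => ?_⟩
    rcases Set.mem_insert_iff.1 hf with rfl | hf
    · exact hP _ _ _ (min_le_right _ _) h2
    · exact hP _ _ _ (min_le_left _ _) (h1 f hf)

theorem R_le {r r' : ℝ} (h : r ≤ r') : G.R r' ≤ G.R r := by
  rintro g ⟨hg, ε, hε, h1⟩
  exact ⟨hg, ε, hε, fun x hx hp => h1 x hx (by linarith)⟩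

theorem L_le {l l' : ℝ} (h : l' ≤ l) : G.L l' ≤ G.L l := by
  rintro g ⟨hg, ε, hε, h1⟩
  exact ⟨hg, ε, hε, fun x hx hp => h1 x hx (by linarith)⟩

theorem R_leΓ (r : ℝ) : G.R r ≤ G.Γ := fun _ h => h.1

theorem L_leΓ (l : ℝ) : G.L l ≤ G.Γ := fun _ h => h.1

/-- pushing finitely many elements to the right by an element commuting with given ones -/
private theorem pushR_comm {r r' : ℝ} (h : r ≤ r') (F0 F : Set (Equiv.Perm α)) (hF0 : F0.Finite)
    (hF : F.Finite) (h0 : F0 ⊆ G.R r') (h1 : F ⊆ G.R r) :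
    ∃ g ∈ G.R r, (∀ f ∈ F0, g * f = f * g) ∧ ∀ f ∈ F, g * f * g⁻¹ ∈ G.R r' := by
  obtain ⟨ε, hε, hε0⟩ := fin_eps hF0 (fun f ε => ∀ x ∈ G.X, G.pos x ≤ r' + ε → f x = x)
    (fun f ε δ hδ hp x hx hpx => hp x hx (by linarith)) (fun f hf => (h0 hf).2)
  obtain ⟨g, hgΓ, hgr, hg1, hgF⟩ := G.pushR r r' (r' + ε) h (by linarith) F hF fun f hf => h1 hf
  refine ⟨g, ⟨hgΓ, hgr⟩, fun f hf => ?_, fun f hf => ?_⟩
  · refine (Equiv.Perm.Disjoint.commute fun x => ?_).eq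
    by_cases hx : x ∈ G.X
    · rcases le_total (G.pos x) (r' + ε) with h2 | h2
      · exact Or.inr (hε0 f hf x hx h2)
      · exact Or.inl (hg1 x hx h2)
    · exact Or.inl (G.off g hgΓ x hx)
  · exact ⟨G.Γ.mul_mem (G.Γ.mul_mem hgΓ (h1 hf).1) (G.Γ.inv_mem hgΓ), hgF f hf⟩

private theorem pushL_comm {l l' : ℝ} (h : l' ≤ l) (F0 F : Set (Equiv.Perm α)) (hF0 : F0.Finite)
    (hF : F.Finite) (h0 : F0 ⊆ G.L l') (h1 : F ⊆ G.L l) :
    ∃ g ∈ G.L l, (∀ f ∈ F0, g * f = f * g) ∧ ∀ f ∈ F, g * f * g⁻¹ ∈ G.L l' := by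
  obtain ⟨ε, hε, hε0⟩ := fin_eps hF0 (fun f ε => ∀ x ∈ G.X, l' - ε ≤ G.pos x → f x = x)
    (fun f ε δ hδ hp x hx hpx => hp x hx (by linarith)) (fun f hf => (h0 hf).2)
  obtain ⟨g, hgΓ, hgr, hg1, hgF⟩ := G.pushL l l' (l' - ε) h (by linarith) F hF fun f hf => h1 hf
  refine ⟨g, ⟨hgΓ, hgr⟩, fun f hf => ?_, fun f hf => ?_⟩
  · refine (Equiv.Perm.Disjoint.commute fun x => ?_).eq
    by_cases hx : x ∈ G.X
    · rcases le_total (l' - ε) (G.pos x) with h2 | h2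
      · exact Or.inr (hε0 f hf x hx h2)
      · exact Or.inl (hg1 x hx h2)
    · exact Or.inl (G.off g hgΓ x hx)
  · exact ⟨G.Γ.mul_mem (G.Γ.mul_mem hgΓ (h1 hf).1) (G.Γ.inv_mem hgΓ), hgF f hf⟩

/-- finitely many elements of `Γ` lie in `R a` for some `a ≤ r` -/
private theorem fin_R {F : Set (Equiv.Perm α)} (hF : F.Finite) (h : F ⊆ G.Γ) (r : ℝ) :
    ∃ a ≤ r, F ⊆ G.R a := by
  obtain ⟨a, ha, h1⟩ := fin_down hF
    (fun f a => ∀ x ∈ G.X, G.pos x ≤ a + 1 → f x = x)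
    (fun f a b hb hp x hx hpx => hp x hx (by linarith)) r
    (fun f hf => by
      obtain ⟨a, b, h2⟩ := G.bdd f (h hf)
      exact ⟨a - 1, fun x hx hp => h2 x hx (Or.inl (by linarith))⟩)
  exact ⟨a, ha, fun f hf => ⟨h hf, 1, one_pos, h1 f hf⟩⟩

private theorem fin_L {F : Set (Equiv.Perm α)} (hF : F.Finite) (h : F ⊆ G.Γ) (l : ℝ) :
    ∃ a, l ≤ a ∧ F ⊆ G.L a := by
  obtain ⟨a, ha, h1⟩ := fin_down hF
    (fun f a => ∀ x ∈ G.X, - a - 1 ≤ G.pos x → f x = x)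
    (fun f a b hb hp x hx hpx => hp x hx (by linarith)) (-l)
    (fun f hf => by
      obtain ⟨a, b, h2⟩ := G.bdd f (h hf)
      exact ⟨- b - 1, fun x hx hp => h2 x hx (Or.inr (by linarith))⟩)
  exact ⟨-a, by linarith, fun f hf => ⟨h hf, 1, one_pos, h1 f hf⟩⟩

theorem incl_R {r r' : ℝ} (h : r ≤ r') : HIso (sgIncl (G.R_le h)) :=
  conjIncl_hiso _ fun F0 F hF0 hF h0 h1 => G.pushR_comm h F0 F hF0 hF h0 h1

theorem incl_L {l l' : ℝ} (h : l' ≤ l) : HIso (sgIncl (G.L_le h)) :=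
  conjIncl_hiso _ fun F0 F hF0 hF h0 h1 => G.pushL_comm h F0 F hF0 hF h0 h1

theorem incl_RΓ (r : ℝ) : HIso (sgIncl (G.R_leΓ r)) :=
  conjIncl_hiso _ fun F0 F hF0 hF h0 h1 => by
    obtain ⟨a, ha, hFa⟩ := G.fin_R hF h1 r
    obtain ⟨g, hg, hg1, hg2⟩ := G.pushR_comm ha F0 F hF0 hF h0 hFa
    exact ⟨g, hg.1, hg1, hg2⟩

theorem incl_LΓ (l : ℝ) : HIso (sgIncl (G.L_leΓ l)) :=
  conjIncl_hiso _ fun F0 F hF0 hF h0 h1 => by
    obtain ⟨a, ha, hFa⟩ := G.fin_L hF h1 l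
    obtain ⟨g, hg, hg1, hg2⟩ := G.pushL_comm ha F0 F hF0 hF h0 hFa
    exact ⟨g, hg.1, hg1, hg2⟩

/-- upper bounds for arrows -/
theorem exists_adm (g : Equiv.Perm α) (hg : g ∈ G.Γ) (J J' : Blk) :
    ∃ J'' : Blk, G.Adm J g J'' ∧ G.Adm J' 1 J'' ∧
      ∀ x ∈ G.X, (G.pos x ≤ J''.1.1 ∨ J''.1.2 ≤ G.pos x) → g x = x := by
  obtain ⟨a, b, h⟩ := G.bdd g hg
  have hlt : min (min J.1.1 J'.1.1) a - 1 < max (max J.1.2 J'.1.2) b + 1 := by
    have h1 := (min_le_left (min J.1.1 J'.1.1) a).trans (min_le_left _ _)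
    have h2 := (le_max_left J.1.2 J'.1.2).trans (le_max_left _ b)
    have h3 := J.2
    linarith
  have hl1 := (min_le_left (min J.1.1 J'.1.1) a).trans (min_le_left _ _)
  have hl2 := (min_le_left (min J.1.1 J'.1.1) a).trans (min_le_right _ _)
  have hl3 := min_le_right (min J.1.1 J'.1.1) a
  have hr1 := (le_max_left J.1.2 J'.1.2).trans (le_max_left _ b)
  have hr2 := (le_max_right J.1.2 J'.1.2).trans (le_max_left _ b)
  have hr3 := le_max_right (max J.1.2 J'.1.2) b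
  refine ⟨⟨(min (min J.1.1 J'.1.1) a - 1, max (max J.1.2 J'.1.2) b + 1), hlt⟩,
    ⟨hg, fun ε hε => ⟨1, one_pos, fun x hx hp => ?_⟩,
      fun ε hε => ⟨1, one_pos, fun x hx hp => ?_⟩⟩,
    ⟨G.Γ.one_mem, fun ε hε => ⟨1, one_pos, fun x hx hp => ?_⟩,
      fun ε hε => ⟨1, one_pos, fun x hx hp => ?_⟩⟩, fun x hx hp => ?_⟩
  · change G.pos (g x) ≤ max (max J.1.2 J'.1.2) b + 1 + ε
    rcases le_or_gt b (G.pos x) with hb | hb
    · rw [h x hx (Or.inr hb)]
      linarith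
    · by_contra hc
      have h1 := h (g x) (G.mem_X g hg x hx) (Or.inr (by linarith))
      have h2 := g.injective h1
      rw [h2] at hc
      linarith
  · change min (min J.1.1 J'.1.1) a - 1 - ε ≤ G.pos (g x)
    rcases le_or_gt (G.pos x) a with hb | hb
    · rw [h x hx (Or.inl hb)]
      linarith
    · by_contra hc
      have h1 := h (g x) (G.mem_X g hg x hx) (Or.inl (by linarith))
      have h2 := g.injective h1
      rw [h2] at hc
      linarith
  · change G.pos x ≤ max (max J.1.2 J'.1.2) b + 1 + ε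
    linarith
  · change min (min J.1.1 J'.1.1) a - 1 - ε ≤ G.pos x
    linarith
  · refine h x hx ?_
    rcases hp with hp | hp
    · left
      change G.pos x ≤ min (min J.1.1 J'.1.1) a - 1 at hp
      linarith
    · right
      change max (max J.1.2 J'.1.2) b + 1 ≤ G.pos x at hp
      linarith

theorem cd_hiso : HIso (idFun (A := G.CD) (A' := sg G.Γ) (fun _ => ()) (fun h => h.1)
    (fun h => h)) := by
  refine quillenA_over _ fun b => ?_
  refine acy_over (A := G.CD) (A' := sg G.Γ) (fun _ => ()) (fun h => h.1) (fun h => h) b.o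
    ⟨⟨(0, 1), zero_lt_one⟩, 1, G.Γ.one_mem⟩ ?_ (fun _ _ _ _ _ _ _ _ h => h)
  intro J1 g1 J2 g2 h1 h2
  have h1' : g1 ∈ G.Γ := h1
  have h2' : g2 ∈ G.Γ := h2
  obtain ⟨J3, h3, -, -⟩ := G.exists_adm g1 h1' J1 J2
  obtain ⟨J4, h4, h5, -⟩ := G.exists_adm g2 h2' J2 J3
  refine ⟨J4, 1, g1, g2, G.Γ.one_mem, ?_, h4, ?_, ?_⟩
  · have := h3.mul G h5
    rwa [one_mul] at this
  · change (1 * g1)⁻¹ * g1 ∈ (⊥ : Subgroup (Equiv.Perm α))
    rw [Subgroup.mem_bot]
    group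
  · change (1 * g2)⁻¹ * g2 ∈ (⊥ : Subgroup (Equiv.Perm α))
    rw [Subgroup.mem_bot]
    group

end LineGrp
end C715
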