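import Pool.Agent.Work.MP_c71557_gt.L.LA
import Pool.Agent.Work.MP_c71557_gt.H.RelPt

set_option autoImplicit false

/-!
# MP_c71557_gt, module L/LB: the category `CP` is acyclic (M)

`CP = G.CP`: blocks, admissible elements modulo `R r`.
PROOF.  Consider `Δ : CD → CP × CD` (product category), `J ↦ (J, J)`, `g ↦ ([g], g)`, i.e.
`Functor.prod'` of `CD → CP` and the identity.
(1) `Δ` is a homology isomorphism: `fibIso_under` for `F = Δ`, `R = Prod.fst : CP × CD ⥤ CP`.  For an
object `J0` of `CP`: the category under `J0` of `Δ ⋙ fst = (CD → CP)` is described by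
`fib_hiso` (`A = CD`, `N = ⊥`, `N' J = R r`): `sg (R r0) → StructuredArrow J0 (CD → CP)` is a homology
isomorphism.  The category under `J0` of `fst : CP × CD → CP` has objects `((J1, J2), J0 → J1)`; the
functor `CD → StructuredArrow J0 fst`, `J ↦ ((J0, J), 𝟙)` is a homology isomorphism (it has a right
or left adjoint: the target is `StructuredArrow J0 (𝟭 CP) × CD`, and `StructuredArrow J0 (𝟭)` has an
initial object; use `quillenA_over`: over `((J1,J2), u)` the category of `J → ...` has the terminal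
object `J2`).  The functor `StructuredArrow.pre J0 Δ fst` composed with `sg (R r0) → ...` is
`g ↦ ((g,g) : ((J0, J0), 𝟙) → ...)`, where `[g] = 𝟙` in `CP`; so it is the composite of
`sg (R r0) → CD` (at `J0`) and `CD → StructuredArrow J0 fst`.  Now `sg (R r0) → CD → sg Γ` is
`sgIncl`, a homology isomorphism by `incl_RΓ`, and `CD → sg Γ` is one (`cd_hiso`).  So everything is
a homology isomorphism (two out of three: `HIso.of_comp_left`, `HIso.of_comp_right`).
(2) `snd ∘ Δ = id`, so `snd : CP × CD → CD` is a homology isomorphism.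
(3) Fix a block `J*` and let `ι : CP → CP × CD`, `J ↦ (J, J*)`; `fst ∘ ι = id`, so `H_n(ι)` is
injective; `snd ∘ ι` is constant, so it is zero in degrees `n ≥ 1` (factors through the point) and
in degree `0` it has rank one (factors through the augmentation).  Hence `H_n(CP) = 0` for
`n ≥ 1`, and `H_0(CP) = ℚ`.
-/

namespace C715

open CategoryTheory ActCat

namespace LineGrp

variable {α : Type} (G : LineGrp α)

private abbrev E : ActCat (Equiv.Perm α) :=
  G.CD.enl (fun J => G.R J.1.2) (fun hn => G.R_adm hn) (fun hg hn => G.R_conj hg hn)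

private theorem hbR (J : Blk) : G.CD.N J ≤ G.R J.1.2 := fun n hn => by
  have hn' : n ∈ (⊥ : Subgroup (Equiv.Perm α)) := hn
  rw [Subgroup.mem_bot] at hn'
  subst hn'
  exact Subgroup.one_mem _

private def dg : G.CD.Obj ⥤ G.E.Obj × G.CD.Obj :=
  (G.CD.proj (fun J => G.R J.1.2) (fun hn => G.R_adm hn) (fun hg hn => G.R_conj hg hn)
    G.hbR).prod' (𝟭 _)

private def lam (x : G.E.Obj) : G.CD.Obj ⥤ StructuredArrow x (CategoryTheory.Prod.fst G.E.Obj G.CD.Obj) where
  obj J := StructuredArrow.mk (Y := ((x, J) : G.E.Obj × G.CD.Obj)) (𝟙 x)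
  map {J J'} u := StructuredArrow.homMk ((𝟙 x, u) : ((x, J) : G.E.Obj × G.CD.Obj) ⟶ (x, J'))
    (Category.comp_id _)
  map_id J := rfl
  map_comp u v := by
    ext1
    exact Prod.ext (Category.comp_id _).symm rfl

private def rho (x : G.E.Obj) : StructuredArrow x (CategoryTheory.Prod.fst G.E.Obj G.CD.Obj) ⥤ G.CD.Obj :=
  StructuredArrow.proj x _ ⋙ CategoryTheory.Prod.snd _ _

private def rl (x : G.E.Obj) : G.rho x ⋙ G.lam x ⟶ 𝟭 _ where
  app X := StructuredArrow.homMk
    (show ((x, X.right.2) : G.E.Obj × G.CD.Obj) ⟶ (X.right.1, X.right.2) from (X.hom, 𝟙 _))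
    (Category.id_comp _)
  naturality X Y f := by
    ext1
    refine Prod.ext ?_ ?_
    · change 𝟙 x ≫ Y.hom = X.hom ≫ f.right.1
      rw [Category.id_comp]
      exact (StructuredArrow.w f).symm
    · change f.right.2 ≫ 𝟙 _ = 𝟙 _ ≫ f.right.2
      rw [Category.id_comp, Category.comp_id]

private theorem lam_hiso (x : G.E.Obj) : HIso (G.lam x) :=
  hiso_of_nat (G.lam x) (G.rho x) (Or.inl ⟨𝟙 _⟩) (Or.inr ⟨G.rl x⟩)

private abbrev kap (J : Blk) :
    (sg (G.R J.1.2)).Obj ⥤ StructuredArrow (⟨J⟩ : G.E.Obj) (G.dg ⋙ CategoryTheory.Prod.fst G.E.Obj G.CD.Obj) :=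
  G.CD.fibUnder (fun J => G.R J.1.2) (fun hn => G.R_adm hn) (fun hg hn => G.R_conj hg hn)
    G.hbR J

private abbrev fI (J : Blk) : (sg (G.R J.1.2)).Obj ⥤ G.CD.Obj :=
  G.CD.fibIncl (fun J => G.R J.1.2) (fun hn => G.R_adm hn) G.hbR J

private theorem fI_hiso (J : Blk) : HIso (G.fI J) := by
  refine HIso.of_comp_right G.cd_hiso ?_
  have e : G.fI J ⋙ idFun (A := G.CD) (A' := sg G.Γ) (fun _ => ()) (fun h => h.1) (fun h => h) =
      sgIncl (G.R_leΓ J.1.2) := by
    refine Functor.hext (fun x => rfl) fun x y f => ?_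
    induction f using ActCat.ind with
    | h g hg => rfl
  rw [e]
  exact G.incl_RΓ J.1.2

private def kl (J : Blk) : G.kap J ⋙ StructuredArrow.pre (⟨J⟩ : G.E.Obj) G.dg (CategoryTheory.Prod.fst G.E.Obj G.CD.Obj) ⟶
    G.fI J ⋙ G.lam ⟨J⟩ where
  app X := StructuredArrow.homMk (𝟙 ((⟨J⟩, ⟨J⟩) : G.E.Obj × G.CD.Obj)) (Category.comp_id _)
  naturality X Y f := by
    ext1
    refine Prod.ext ?_ ?_
    · induction f using ActCat.ind with
      | h n hn =>
        change G.E.hom n (G.R_adm hn) ≫ 𝟙 _ = 𝟙 _ ≫ 𝟙 _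
        rw [Category.comp_id, Category.comp_id]
        refine cl_eq.2 ?_
        change n⁻¹ * 1 ∈ G.R J.1.2
        rw [mul_one]
        exact (G.R J.1.2).inv_mem hn
    · change (G.fI J).map f ≫ 𝟙 _ = 𝟙 _ ≫ (G.fI J).map f
      rw [Category.id_comp, Category.comp_id]

private theorem dg_hiso : HIso G.dg := by
  refine fibIso_under G.dg (CategoryTheory.Prod.fst G.E.Obj G.CD.Obj) fun x => ?_
  obtain ⟨J⟩ := x
  refine HIso.of_comp_left (F := G.kap J) (G.CD.fib_hiso _ _ _ _ J) ?_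
  intro n
  rw [HCmap_natTrans (G.kl J) n]
  exact ((G.fI_hiso J).comp (G.lam_hiso ⟨J⟩)) n

private theorem snd_hiso : HIso (CategoryTheory.Prod.snd G.E.Obj G.CD.Obj) := by
  refine HIso.of_comp_left G.dg_hiso ?_
  change HIso (𝟭 _)
  intro n
  have : (HCmap (𝟭 G.CD.Obj) n : HC G.CD.Obj n → _) = id := funext fun y => HCmap_id n y
  rw [this]
  exact Function.bijective_id

theorem cp_acy : Acy G.CP.Obj := by
  change Acy G.E.Obj
  let J0 : Blk := ⟨(0, 1), one_pos⟩
  let ι : G.E.Obj ⥤ G.E.Obj × G.CD.Obj := (𝟭 _).prod' (toPt _ ⋙ ptF (⟨J0⟩ : G.CD.Obj))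
  refine acy_iff.2 fun n => ⟨?_, ?_⟩
  · have h1 : Function.Injective (HCmap ι n) := by
      refine Function.LeftInverse.injective (g := HCmap (CategoryTheory.Prod.fst G.E.Obj G.CD.Obj) n) fun y => ?_
      rw [← HCmap_comp]
      exact HCmap_id n y
    have h2 : Function.Injective (HCmap (ι ⋙ CategoryTheory.Prod.snd _ _) n) := by
      have : (HCmap (ι ⋙ CategoryTheory.Prod.snd _ _) n : HC G.E.Obj n → _) = HCmap (CategoryTheory.Prod.snd _ _) n ∘ HCmap ι n :=
        funext fun y => HCmap_comp _ _ n y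
      rw [this]
      exact (G.snd_hiso n).1.comp h1
    have h3 : (HCmap (toPt G.E.Obj ⋙ ptF (⟨J0⟩ : G.CD.Obj)) n : HC G.E.Obj n → _) =
        HCmap (ptF _) n ∘ HCmap (toPt G.E.Obj) n :=
      funext fun y => HCmap_comp _ _ n y
    change Function.Injective (HCmap (toPt G.E.Obj ⋙ ptF (⟨J0⟩ : G.CD.Obj)) n) at h2
    rw [h3] at h2
    exact h2.of_comp
  · refine Function.RightInverse.surjective (g := HCmap (ptF (⟨J0⟩ : G.E.Obj)) n) fun y => ?_
    rw [← HCmap_comp]
    exact HCmap_id n y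

end LineGrp
end C715
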