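import Pool.Agent.Work.MP_c71557_gt.L.LB
import Pool.Agent.Work.MP_c71557_gt.H.FibLoc

set_option autoImplicit false

/-!
# MP_c71557_gt, module L/LC: `CP → CV`, the fundamental estimate for line groups (M)

`CV = CP.enl LR`.  The fibre at `J` is `grp (LR J) (R r)`, and `sg (L l) → grp (LR J) (R r)` is a
homology isomorphism (`sgToGrp_hiso`; `L l ∩ R r = 1`: an element which is the identity on
`{pos ≥ l}` and on `{pos ≤ r}`, `l < r`).
* `cv_fib`: the fibre homology is constant: `fibConst_trick`.  Upper bounds: `exists_adm`.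
  `hiso`: for `Adm J 1 J'` one has `J'.1 ≤ J.1` if ... careful: `Adm J 1 J'` says only
  `pos x ≤ J.2 + δ → pos x ≤ J'.2 + ε` for points `x ∈ X`; if `L J'.1`, `L J.1` are compared: for
  `n ∈ L l'` we have `1⁻¹ n 1 = n ∈ LR J`, and `fibConj 1` corresponds to the inclusion
  `L l' ≤ L l` when `l' ≤ l`; in general `L_conj` gives `L l' ≤ L l`, and if `l < l'` then `L l' = L l`
  by monotonicity, so in all cases `fibConj 1` corresponds to an inclusion `L l' ≤ L l` which is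
  a homology isomorphism (`incl_L` or equality).
  `htrick`: for `g : J → J'` take `J''` from `exists_adm` for `g`, enlarged so that also
  `Adm J 1 J''`, and `g` is the identity outside `J''`.  For `n = a b ∈ LR J''`,
  `g⁻¹ n g = n`: `g` commutes with `a ∈ L l''` and `b ∈ R r''` (`g` is supported in
  `{l'' < pos < r''}`; as in `comm_LR`).
* `cv_rel`: `rel_act` for `A = CP`, `N' = LR`, base object `J0`, combined with `cp_acy`: let
  `ρ : relC (fibIncl J0) → relC (ptF J0)`.  By `relAcy` and `H_q(fib) ≅ H_q(L l0)`: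
  kernel and cokernel of `ρ` on `H_n` are estimated by `H_p(CV, J0) ⊗ H_q(L l0)`.
* `cv_low`: `CV` is connected and `H_1(CV) = 0`: cokernel estimate in degrees `0, 1`: no `p, q` with
  `q ≥ 1`, `p + q + 1 = 1`; `H_1(CP, fib) = 0` by `relAcy`; so `H_1(CV, J0) = 0`, then `relPt`.
  If moreover `H_1(L l) = 0` then `H_2(CV) = 0`: the terms with `p + q + 1 = 2`, `q ≥ 1`: `p = 0`,
  `H_0(CV, J0) = 0`; `H_2(CP, fib) ≅ H_1(fib) = 0`.
* `cv_cnt`: if `H_i(L l0)` is countable for `1 ≤ i ≤ n` then `H_p(CV)` is countable for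
  `p ≤ n + 1`, `p ≥ 1` (induction on `p` with the cokernel estimate: terms `p' < p`,
  `q ≤ p - 1 ≤ n`; the tensor product of countable spaces is countable; `H_0(CV,J0) = 0`;
  `H_p(CP, fib) ≅ H_{p-1}(fib)` for `p ≥ 2`).
-/

namespace C715

open CategoryTheory ActCat

namespace LineGrp

variable {α : Type} (G : LineGrp α)

/-- the fibre of `CP → CV` -/
abbrev Fb (J : Blk) : ActCat (Equiv.Perm α) :=
  G.CP.fib G.LR (fun hn => G.LR_adm hn) (fun J => G.R_le_LR J) J

theorem fb_hiso (J : Blk) : HIso (sgToGrp (G.L J.1.1) (G.LR J) (G.R J.1.2) (G.R_le_LR J)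
    (fun g hg n hn => G.CP.conj (G.LR_adm hg) hn) (G.L_le_LR J)) := by
  refine sgToGrp_hiso _ _ _ _ _ _ ?_ ?_
  · intro k hk hk'
    obtain ⟨hkΓ, ε, hε, h1⟩ := hk
    obtain ⟨_, ε', hε', h2⟩ := hk'
    have hJ := J.2
    ext x
    rw [Equiv.Perm.one_apply]
    by_cases hx : x ∈ G.X
    · rcases le_or_gt (G.pos x) J.1.2 with h | h
      · exact h2 x hx (by linarith)
      · exact h1 x hx (by linarith)
    · exact G.off k hkΓ x hx
  · rintro g ⟨a, ha, b, hb, rfl⟩
    refine ⟨a, ha, ?_⟩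
    rw [inv_mul_cancel_left]
    exact hb

private theorem comm_of_id {J : Blk} {g n : Equiv.Perm α} (hgΓ : g ∈ G.Γ)
    (hg : ∀ x ∈ G.X, (G.pos x ≤ J.1.1 ∨ J.1.2 ≤ G.pos x) → g x = x) (hn : n ∈ G.LR J) :
    g * n = n * g := by
  obtain ⟨a, ha, b, hb, rfl⟩ := hn
  have ca : g * a = a * g := by
    obtain ⟨haΓ, ε, hε, h1⟩ := id ha
    ext x
    rw [Equiv.Perm.mul_apply, Equiv.Perm.mul_apply]
    by_cases hx : x ∈ G.X
    · rcases lt_or_ge (G.pos x) J.1.1 with h | h
      · have h3 := G.L_lt ha x hx h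
        rw [hg x hx (Or.inl h.le), hg (a x) (G.mem_X a haΓ x hx) (Or.inl h3.le)]
      · rw [h1 x hx (by linarith)]
        refine (h1 (g x) (G.mem_X g hgΓ x hx) ?_).symm
        by_contra hc
        have h4 := hg (g x) (G.mem_X g hgΓ x hx) (Or.inl (by linarith))
        rw [g.injective h4] at hc
        exact hc (by linarith)
    · rw [G.off a haΓ x hx, G.off g hgΓ x hx, G.off a haΓ x hx]
  have cb : g * b = b * g := by
    obtain ⟨hbΓ, ε, hε, h1⟩ := id hb
    ext x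
    rw [Equiv.Perm.mul_apply, Equiv.Perm.mul_apply]
    by_cases hx : x ∈ G.X
    · rcases lt_or_ge J.1.2 (G.pos x) with h | h
      · have h3 := G.R_gt hb x hx h
        rw [hg x hx (Or.inr h.le), hg (b x) (G.mem_X b hbΓ x hx) (Or.inr h3.le)]
      · rw [h1 x hx (by linarith)]
        refine (h1 (g x) (G.mem_X g hgΓ x hx) ?_).symm
        by_contra hc
        have h4 := hg (g x) (G.mem_X g hgΓ x hx) (Or.inr (by linarith))
        rw [g.injective h4] at hc
        exact hc (by linarith)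
    · rw [G.off b hbΓ x hx, G.off g hgΓ x hx, G.off b hbΓ x hx]
  rw [← mul_assoc, ca, mul_assoc, cb, mul_assoc]

private theorem L_sub {a c : Blk} (h : G.Adm a 1 c) : G.L c.1.1 ≤ G.L a.1.1 := fun n hn => by
  have := G.L_conj h hn
  simpa using this

private theorem L_sub_hiso {a c : Blk} (h : G.L c.1.1 ≤ G.L a.1.1) : HIso (sgIncl h) := by
  rcases le_or_gt c.1.1 a.1.1 with hc | hc
  · exact G.incl_L hc
  · have h2 := G.L_le hc.le
    exact sgMap_hiso _ _ _ _ (fun k _ e => e) (fun l hl => ⟨l, h2 hl, rfl⟩)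

theorem cv_fib (J0 : Blk) : G.CP.FibConst G.LR (fun hn => G.LR_adm hn)
    (fun hg hn => G.LR_conj hg hn) (fun J => G.R_le_LR J) J0 := by
  refine fibConst_trick G.CP G.LR (fun hn => G.LR_adm hn)
    (fun hg hn => G.LR_conj hg hn) (fun J => G.R_le_LR J) J0 ?_ ?_ ?_
  · intro a b
    obtain ⟨c, h1, h2, _⟩ := G.exists_adm 1 G.Γ.one_mem a b
    exact ⟨c, h1, h2⟩
  · intro a c h
    have h' : G.Adm a 1 c := h
    have e : sgToGrp (G.L c.1.1) (G.LR c) (G.R c.1.2) (G.R_le_LR c)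
        (fun g hg n hn => G.CP.conj (G.LR_adm hg) hn) (G.L_le_LR c) ⋙
          G.CP.fibConj G.LR (fun hn => G.LR_adm hn)
            (fun hg hn => G.LR_conj hg hn) (fun J => G.R_le_LR J) h =
        sgIncl (G.L_sub h') ⋙ sgToGrp (G.L a.1.1) (G.LR a) (G.R a.1.2) (G.R_le_LR a)
        (fun g hg n hn => G.CP.conj (G.LR_adm hg) hn) (G.L_le_LR a) := by
      refine Functor.hext (fun x => rfl) fun x y f => ?_
      induction f using ActCat.ind with
      | h g hg =>
        refine heq_of_eq (cl_eq.2 ?_)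
        change ((1 : Equiv.Perm α)⁻¹ * g * (1 : Equiv.Perm α)⁻¹⁻¹)⁻¹ * g ∈ G.R a.1.2
        have : ((1 : Equiv.Perm α)⁻¹ * g * (1 : Equiv.Perm α)⁻¹⁻¹)⁻¹ * g = 1 := by group
        rw [this]
        exact Subgroup.one_mem _
    have h3 : HIso (G.CP.fibConj G.LR (fun hn => G.LR_adm hn)
            (fun hg hn => G.LR_conj hg hn) (fun J => G.R_le_LR J) h) := by
      have hh := (G.L_sub_hiso (G.L_sub h')).comp (G.fb_hiso a)
      rw [← e] at hh
      exact HIso.of_comp_left (G.fb_hiso c) hh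
    exact h3
  · intro a b g hg
    obtain ⟨c, h1, h2, h3⟩ := G.exists_adm g hg.1 a b
    obtain ⟨c', h4, h5, _⟩ := G.exists_adm 1 G.Γ.one_mem a c
    refine ⟨c', h4, ?_, ?_⟩
    · have := h2.mul G h5
      rwa [one_mul] at this
    · intro n hn
      have hn' : n ∈ G.LR c := by
        have := G.LR_conj h5 hn
        simpa using this
      have := G.comm_of_id hg.1 h3 hn'
      have e : n⁻¹ * (g⁻¹ * n * g) = 1 := by
        rw [mul_assoc g⁻¹, ← this]
        group
      rw [e]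
      exact Subgroup.one_mem _

/-- the map of relative complexes -/
noncomputable abbrev ρ (J0 : Blk) :=
  G.CP.relActMap G.LR (fun hn => G.LR_adm hn) (fun hg hn => G.LR_conj hg hn)
    (fun J => G.R_le_LR J) J0

private noncomputable def tEq (J0 : Blk) (V : Type) [AddCommGroup V] [Module ℚ V] (q : ℕ) :
    TensorProduct ℚ V (HC (sg (G.L J0.1.1)).Obj q) ≃ₗ[ℚ]
      TensorProduct ℚ V (HC (G.Fb J0).Obj q) :=
  TensorProduct.congr (LinearEquiv.refl ℚ V) (LinearEquiv.ofBijective _ (G.fb_hiso J0 q))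

theorem cv_rel (J0 : Blk) (S : Serre) (n : ℕ) :
    ((∀ p q, 1 ≤ q → p + q = n → S.P (TensorProduct ℚ
        ((relC (ptF (⟨J0⟩ : G.CV.Obj))).H p) (HC (sg (G.L J0.1.1)).Obj q))) →
      S.P (LinearMap.ker ((G.ρ J0).H n))) ∧
    ((∀ p q, 1 ≤ q → p + q + 1 = n → S.P (TensorProduct ℚ
        ((relC (ptF (⟨J0⟩ : G.CV.Obj))).H p) (HC (sg (G.L J0.1.1)).Obj q))) →
      S.P ((relC (ptF (⟨J0⟩ : G.CV.Obj))).H n ⧸ LinearMap.range ((G.ρ J0).H n))) := by
  have h := rel_act G.CP G.LR (fun hn => G.LR_adm hn) (fun hg hn => G.LR_conj hg hn)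
    (fun J => G.R_le_LR J) J0 (G.cv_fib J0) S n
  refine ⟨fun h1 => h.1 fun p q hq hp => ?_, fun h1 => h.2 fun p q hq hp => ?_⟩
  · exact (S.congr (G.tEq J0 _ q)).1 (h1 p q hq hp)
  · exact (S.congr (G.tEq J0 _ q)).1 (h1 p q hq hp)

theorem cv_conn (x : (NC G.CV.Obj).X 0)
    (hx : Finsupp.linearCombination ℚ (fun _ => (1 : ℚ)) x = 0) : x ∈ (NC G.CV.Obj).Bd 0 := by
  refine H0_of_connected (fun a b => ?_) x hx
  obtain ⟨c, h1, h2, _⟩ := G.exists_adm 1 G.Γ.one_mem a.o b.o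
  exact Relation.EqvGen.trans _ (⟨c⟩ : G.CV.Obj) _
    (Relation.EqvGen.rel _ _ ⟨G.CV.hom (a := a.o) (b := c) 1 h1⟩)
    (Relation.EqvGen.symm _ _ (Relation.EqvGen.rel _ _ ⟨G.CV.hom (a := b.o) (b := c) 1 h2⟩))

private theorem fb_conn (J : Blk) (x : (NC (G.Fb J).Obj).X 0)
    (hx : Finsupp.linearCombination ℚ (fun _ => (1 : ℚ)) x = 0) :
    x ∈ (NC (G.Fb J).Obj).Bd 0 := by
  refine H0_of_connected (fun a b => ?_) x hx
  obtain ⟨a⟩ := a
  obtain ⟨b⟩ := b
  exact Relation.EqvGen.refl _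

private abbrev fbI (J : Blk) : (G.Fb J).Obj ⥤ G.CP.Obj :=
  G.CP.fibIncl G.LR (fun hn => G.LR_adm hn) (fun J => G.R_le_LR J) J

private theorem fbI_inj (J : Blk) (n : ℕ) :
    Function.Injective (fun σ : Sx (G.Fb J).Obj n => σ.push (G.fbI J)) :=
  G.CP.fibIncl_inj G.LR (fun hn => G.LR_adm hn) (fun J => G.R_le_LR J) J n

private theorem pair_acy (J : Blk) :
    (∀ n, Function.Bijective (Cx.delta (Cx.coker_SES (NCmap (G.fbI J))
      (NCmap_inj (G.fbI J) (G.fbI_inj J))) (n + 1))) ∧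
      Subsingleton ((relC (G.fbI J)).H 0) ∧ Subsingleton ((relC (G.fbI J)).H 1) :=
  relAcy G.cp_acy (G.fbI J) (G.fbI_inj J) ⟨⟨()⟩⟩ (G.fb_conn J)

/-- `H_{n+2}(CP, fib) ≅ H_{n+1}(L)` -/
private theorem pair_eq (J : Blk) (n : ℕ) :
    Nonempty ((relC (G.CP.fibIncl G.LR (fun hn => G.LR_adm hn) (fun J => G.R_le_LR J) J)).H (n + 2)
      ≃ₗ[ℚ] HC (sg (G.L J.1.1)).Obj (n + 1)) :=
  ⟨(LinearEquiv.ofBijective _ ((G.pair_acy J).1 n)).trans
    (LinearEquiv.ofBijective _ (G.fb_hiso J (n + 1))).symm⟩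

/-- the class `S` for the relative homology of `(CV, J0)` -/
private theorem rel_S (J0 : Blk) (S : Serre) (n : ℕ)
    (h : ∀ p q, 1 ≤ q → p + q + 1 = n → S.P (TensorProduct ℚ
        ((relC (ptF (⟨J0⟩ : G.CV.Obj))).H p) (HC (sg (G.L J0.1.1)).Obj q)))
    (h' : S.P ((relC (G.CP.fibIncl G.LR (fun hn => G.LR_adm hn)
      (fun J => G.R_le_LR J) J0)).H n)) : S.P ((relC (ptF (⟨J0⟩ : G.CV.Obj))).H n) :=
  S.ext3 _ _ _ ((G.ρ J0).H n) (Submodule.mkQ _) (fun x hx => by
    rwa [Submodule.mkQ_apply, Submodule.Quotient.mk_eq_zero] at hx) h' ((G.cv_rel J0 S n).2 h)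

theorem cv_one : Subsingleton (HC G.CV.Obj 1) := by
  let J0 : Blk := ⟨(0, 1), one_pos⟩
  have h : Serre.triv.P ((relC (ptF (⟨J0⟩ : G.CV.Obj))).H 1) :=
    G.rel_S J0 Serre.triv 1 (fun p q hq hp => by omega) (G.pair_acy J0).2.2
  have h' : Subsingleton ((relC (ptF (⟨J0⟩ : G.CV.Obj))).H 1) := h
  exact (relPt (⟨J0⟩ : G.CV.Obj) 0).1.subsingleton

theorem cv_two (J0 : Blk) (h : Subsingleton (HC (sg (G.L J0.1.1)).Obj 1)) :
    Subsingleton (HC G.CV.Obj 2) := by
  have h1 : Serre.triv.P ((relC (ptF (⟨J0⟩ : G.CV.Obj))).H 2) := by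
    refine G.rel_S J0 Serre.triv 2 (fun p q hq hp => ?_) ?_
    · have hp0 : p = 0 := by omega
      subst hp0
      have := relPt_zero (⟨J0⟩ : G.CV.Obj) G.cv_conn
      exact inferInstanceAs (Subsingleton (TensorProduct ℚ _ _))
    · obtain ⟨e⟩ := G.pair_eq J0 0
      exact e.injective.subsingleton
  have h' : Subsingleton ((relC (ptF (⟨J0⟩ : G.CV.Obj))).H 2) := h1
  exact (relPt (⟨J0⟩ : G.CV.Obj) 1).1.subsingleton

private theorem cnt_tensor (V W : Type) [AddCommGroup V] [Module ℚ V] [AddCommGroup W]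
    [Module ℚ W] [Countable V] [Countable W] : Countable (TensorProduct ℚ V W) := by
  have : Function.Surjective (fun l : List (V × W) =>
      (l.map fun p => (TensorProduct.tmul ℚ p.1 p.2)).sum) := by
    intro x
    induction x using TensorProduct.induction_on with
    | zero => exact ⟨[], rfl⟩
    | tmul x y => exact ⟨[(x, y)], by simp⟩
    | add x y hx hy =>
      obtain ⟨l, rfl⟩ := hx
      obtain ⟨l', rfl⟩ := hy
      exact ⟨l ++ l', by simp⟩
  exact this.countable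

theorem cv_cnt (J0 : Blk) (n : ℕ)
    (h : ∀ i, 1 ≤ i → i ≤ n → Countable (HC (sg (G.L J0.1.1)).Obj i)) (p : ℕ) (hp : 1 ≤ p)
    (hpn : p ≤ n + 1) : Countable (HC G.CV.Obj p) := by
  induction p using Nat.strong_induction_on with
  | _ p ih =>
    obtain ⟨m, rfl⟩ : ∃ m, p = m + 1 := ⟨p - 1, by omega⟩
    have h1 : Serre.cnt.P ((relC (ptF (⟨J0⟩ : G.CV.Obj))).H (m + 1)) := by
      refine G.rel_S J0 Serre.cnt (m + 1) (fun p q hq hpq => ?_) ?_
      · have hq' : Countable (HC (sg (G.L J0.1.1)).Obj q) := h q hq (by omega)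
        rcases Nat.eq_zero_or_pos p with hp0 | hp0
        · subst hp0
          have := relPt_zero (⟨J0⟩ : G.CV.Obj) G.cv_conn
          exact cnt_tensor _ _
        · obtain ⟨p', rfl⟩ : ∃ p', p = p' + 1 := ⟨p - 1, by omega⟩
          have := ih (p' + 1) (by omega) (by omega) (by omega)
          have := (relPt (⟨J0⟩ : G.CV.Obj) p').2.countable
          exact cnt_tensor _ _
      · cases m with
        | zero =>
          have := (G.pair_acy J0).2.2
          exact Serre.cnt.zero _ this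
        | succ m =>
          obtain ⟨e⟩ := G.pair_eq J0 m
          have := h (m + 1) (by omega) (by omega)
          exact e.injective.countable
    have h' : Countable ((relC (ptF (⟨J0⟩ : G.CV.Obj))).H (m + 1)) := h1
    exact (relPt (⟨J0⟩ : G.CV.Obj) m).1.countable

end LineGrp
end C715
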